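import Pool.Agent.H23.AF.Targets
import Pool.Agent.H59.AE.J2
import Pool.Agent.H74.AE.J3

/-!
# af_modules JE: triples with a good divisor of the third entry
-/

set_option autoImplicit false

open Finset

namespace Pool.Agent.H20.AF

open Pool.Agent.H38.AE Pool.Agent.H23.AF Pool.Agent.H59.AE

theorem rad_one_le (n : ℕ) : (1 : ℝ) ≤ (rad n : ℝ) := by exact_mod_cast rad_pos n

/-- the number of the cell -/
def TT (a : ℕ) : ℕ := if a = 0 then 0 else 2 ^ a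

/-- comparison of the logarithms -/
theorem abs_log_sub_le {x y m : ℝ} (hm : 0 < m) (hx : m ≤ x) (hy : m ≤ y) :
    |Real.log x - Real.log y| ≤ |x - y| / m := by
  have hx0 : 0 < x := lt_of_lt_of_le hm hx
  have hy0 : 0 < y := lt_of_lt_of_le hm hy
  have key : ∀ u v : ℝ, m ≤ u → m ≤ v → Real.log u - Real.log v ≤ |u - v| / m := by
    intro u v hu hv
    have hu0 : 0 < u := lt_of_lt_of_le hm hu
    have hv0 : 0 < v := lt_of_lt_of_le hm hv
    rw [← Real.log_div hu0.ne' hv0.ne']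
    have h1 := Real.log_le_sub_one_of_pos (div_pos hu0 hv0)
    refine h1.trans ?_
    have h2 : u / v - 1 = (u - v) / v := by field_simp
    rw [h2]
    have h3 : (u - v) / v ≤ |u - v| / v := div_le_div_of_nonneg_right (le_abs_self _) hv0.le
    refine h3.trans ?_
    exact div_le_div_of_nonneg_left (abs_nonneg _) hm hv
  rw [abs_le]
  constructor
  · have := key y x hy hx
    rw [abs_sub_comm] at this
    linarith
  · exact key x y hx hy

/-- the cell of a triple: `T |log |t₁| - log |t₂|| ≤ 2` and `τ ≤ 2 (T + 1)` -/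
theorem cell {x y z : ℤ} (hx : x ≠ 0) (hy : y ≠ 0) (hz : z ≠ 0) (hs : x + y + z = 0) :
    let X : ℤ := max |x| (max |y| |z|)
    let a : ℕ := Nat.log 2 (X.natAbs / z.natAbs)
    (TT a : ℝ) * |Real.log (x.natAbs : ℝ) - Real.log (y.natAbs : ℝ)| ≤ 2 ∧
      (X : ℝ) / |(z : ℝ)| ≤ 2 * ((TT a : ℝ) + 1) ∧ 1 ≤ (X : ℝ) / |(z : ℝ)| := by
  intro X a
  have hzX : |z| ≤ X := (le_max_right _ _).trans (le_max_right _ _)
  have hz1 : 1 ≤ |z| := Int.one_le_abs hz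
  have hX1 : 1 ≤ X := hz1.trans hzX
  have hzn : 0 < z.natAbs := Int.natAbs_pos.2 hz
  have hXn : ((X.natAbs : ℕ) : ℤ) = X := by rw [Int.natCast_natAbs, abs_of_nonneg (by omega)]
  have hznz : ((z.natAbs : ℕ) : ℤ) = |z| := Int.natCast_natAbs z
  have hle : z.natAbs ≤ X.natAbs := by
    have : ((z.natAbs : ℕ) : ℤ) ≤ ((X.natAbs : ℕ) : ℤ) := by rw [hXn, hznz]; exact hzX
    exact_mod_cast this
  have hdiv : 1 ≤ X.natAbs / z.natAbs := (Nat.one_le_div_iff hzn).2 hle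
  have hXr : ((X.natAbs : ℕ) : ℝ) = (X : ℝ) := by
    rw [Nat.cast_natAbs, abs_of_nonneg (by omega)]
  have hzr : ((z.natAbs : ℕ) : ℝ) = |(z : ℝ)| := by
    rw [Nat.cast_natAbs, Int.cast_abs]
  have hz0 : (0 : ℝ) < |(z : ℝ)| := by rw [← hzr]; exact_mod_cast hzn
  have hτ1 : 1 ≤ (X : ℝ) / |(z : ℝ)| := by
    rw [one_le_div hz0, ← hzr, ← hXr]
    exact_mod_cast hle
  -- the upper bound for `τ`
  have hup : (X : ℝ) / |(z : ℝ)| < (2 : ℝ) ^ (a + 1) := by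
    have h1 : X.natAbs / z.natAbs < 2 ^ (a + 1) := Nat.lt_pow_succ_log_self (by norm_num) _
    have h2 : X.natAbs < 2 ^ (a + 1) * z.natAbs := (Nat.div_lt_iff_lt_mul hzn).1 h1
    rw [div_lt_iff₀ hz0, ← hzr, ← hXr]
    exact_mod_cast h2
  have hlow : (2 : ℝ) ^ a * |(z : ℝ)| ≤ (X : ℝ) := by
    have h1 : 2 ^ a ≤ X.natAbs / z.natAbs := Nat.pow_log_le_self 2 (by omega)
    have h2 : 2 ^ a * z.natAbs ≤ X.natAbs := (Nat.le_div_iff_mul_le hzn).1 h1
    rw [← hzr, ← hXr]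
    exact_mod_cast h2
  refine ⟨?_, ?_, hτ1⟩
  · by_cases ha : a = 0
    · rw [TT, if_pos ha]; simp
    · have hT : (TT a : ℝ) = (2 : ℝ) ^ a := by rw [TT, if_neg ha]; push_cast; rfl
      rw [hT]
      have h2a : (2 : ℝ) ≤ (2 : ℝ) ^ a := by
        calc (2 : ℝ) = 2 ^ 1 := by norm_num
          _ ≤ 2 ^ a := pow_le_pow_right₀ (by norm_num) (by omega)
      have hX0 : (0 : ℝ) < X := by exact_mod_cast hX1
      have h3 : 2 * |(z : ℝ)| ≤ X := by nlinarith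
      have hxr : ((x.natAbs : ℕ) : ℝ) = |(x : ℝ)| := by
        rw [Nat.cast_natAbs, Int.cast_abs]
      have hyr : ((y.natAbs : ℕ) : ℝ) = |(y : ℝ)| := by
        rw [Nat.cast_natAbs, Int.cast_abs]
      have hsr : (x : ℝ) + y + z = 0 := by exact_mod_cast congrArg (Int.cast : ℤ → ℝ) hs
      have hXmax : (X : ℝ) = max |(x : ℝ)| (max |(y : ℝ)| |(z : ℝ)|) := by
        simp only [X]; push_cast; rfl
      have hd : |(|(x : ℝ)| - |(y : ℝ)|)| ≤ |(z : ℝ)| := by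
        have h4 := abs_abs_sub_abs_le (x : ℝ) (-y)
        rw [abs_neg] at h4
        have h5 : (x : ℝ) - -y = -z := by linarith
        rw [h5, abs_neg] at h4
        exact h4
      have hd2 := abs_le.1 hd
      have hmin : (X : ℝ) / 2 ≤ |(x : ℝ)| ∧ (X : ℝ) / 2 ≤ |(y : ℝ)| := by
        have h6 : (X : ℝ) ≤ |(x : ℝ)| ∨ (X : ℝ) ≤ |(y : ℝ)| := by
          rw [hXmax] at hX0 h3 ⊢
          rcases le_total (|(y : ℝ)|) (|(z : ℝ)|) with h7 | h7
          · rw [max_eq_right h7] at hX0 h3 ⊢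
            rcases le_total (|(x : ℝ)|) (|(z : ℝ)|) with h8 | h8
            · rw [max_eq_right h8] at hX0 h3 ⊢
              linarith
            · left; rw [max_eq_left h8]
          · rw [max_eq_left h7] at hX0 h3 ⊢
            rcases le_total (|(x : ℝ)|) (|(y : ℝ)|) with h8 | h8
            · right; rw [max_eq_right h8]
            · left; rw [max_eq_left h8]
        rcases h6 with h6 | h6
        · constructor <;> linarith [hd2.1, hd2.2]
        · constructor <;> linarith [hd2.1, hd2.2]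
      rw [hxr, hyr]
      have h9 := abs_log_sub_le (by positivity : (0 : ℝ) < X / 2) hmin.1 hmin.2
      have h10 : |(|(x : ℝ)| - |(y : ℝ)|)| / (X / 2) ≤ |(z : ℝ)| / (X / 2) :=
        div_le_div_of_nonneg_right hd (by positivity)
      have h11 : (2 : ℝ) ^ a * (|(z : ℝ)| / (X / 2)) ≤ 2 := by
        rw [← mul_div_assoc, div_le_iff₀ (by positivity)]
        linarith
      calc (2 : ℝ) ^ a * abs (Real.log (abs (x : ℝ)) - Real.log (abs (y : ℝ)))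
          ≤ (2 : ℝ) ^ a * (|(z : ℝ)| / (X / 2)) := by
            refine mul_le_mul_of_nonneg_left (h9.trans h10) (by positivity)
        _ ≤ 2 := h11
  · by_cases ha : a = 0
    · rw [TT, if_pos ha]
      rw [ha] at hup
      norm_num at hup ⊢
      exact hup.le
    · rw [TT, if_neg ha]
      push_cast
      rw [pow_succ] at hup
      linarith

theorem pf_JE (hA : T_A) (hG : T_G2) (hW : T_WE) : T_JE := by
  classical
  obtain ⟨hW1, -, hW3, hW4⟩ := hW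
  intro ε hε
  obtain ⟨δ, hδ⟩ : ∃ δ : ℝ, δ = ε / 3 := ⟨_, rfl⟩
  have hδ0 : 0 < δ := by rw [hδ]; linarith
  obtain ⟨C1, hC1, hA1⟩ := hA δ hδ0
  obtain ⟨C2, hC2, hG1⟩ := hG δ hδ0
  obtain ⟨CL, hCL⟩ : ∃ CL : ℝ, CL = 1 + 1 / (δ * Real.log 2) := ⟨_, rfl⟩
  have hCL0 : 0 < CL := by
    have : 0 < Real.log 2 := Real.log_pos (by norm_num)
    rw [hCL]; positivity
  refine ⟨8 * CL * C1 * C2, by positivity, fun H Z hH hZ => ?_⟩
  -- positivity of `w5`
  have hwpos : ∀ Q R : ℝ, 1 ≤ Q → 1 ≤ R → 0 < w5 Q R := by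
    intro Q R hQ hR
    have h1 := (hW1 Q R hQ hR).1
    have h2 : 0 < R * Real.exp (ell (Real.log R) (Real.log Q)) := by positivity
    linarith
  -- choice of `q`
  have hq0 : ∀ t ∈ SE2 H Z, ∃ q : ℕ, 1 ≤ q ∧ (q : ℤ) ∣ t.2.2 ∧
    (rad q : ℝ) * Real.sqrt (w5 ((q : ℝ) * (mx t : ℝ) / |(t.2.2 : ℝ)|) (RR t.1) *
      w5 ((q : ℝ) * (mx t : ℝ) / |(t.2.2 : ℝ)|) (RR t.2.1)) ≤ Z := fun t ht => ht.2
  choose! Q hQ1 hQ2 hQ3 using hq0
  -- finiteness
  have hfin : (SE2 H Z).Finite := by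
    refine Set.Finite.subset (s := ((Icc (-(H:ℤ)) H ×ˢ Icc (-(H:ℤ)) H ×ˢ Icc (-(H:ℤ)) H :
      Finset (ℤ × ℤ × ℤ)) : Set (ℤ × ℤ × ℤ))) (Finset.finite_toSet _) ?_
    intro t ht
    obtain ⟨-, -, -, -, -, -, -, h1, h2, h3⟩ := ht.1
    simp only [coe_product, coe_Icc, Set.mem_prod, Set.mem_Icc]
    exact ⟨abs_le.1 h1, abs_le.1 h2, abs_le.1 h3⟩
  set S := hfin.toFinset with hS
  have hmem : ∀ t, t ∈ S ↔ t ∈ SE2 H Z := fun t => hfin.mem_toFinset
  rw [Set.ncard_eq_toFinset_card _ hfin, ← hS]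
  have hQH : ∀ t ∈ S, Q t ∈ Icc 1 H := by
    intro t ht
    have ht' := (hmem t).1 ht
    rw [mem_Icc]
    refine ⟨hQ1 t ht', ?_⟩
    obtain ⟨-, -, h0, -, -, -, -, -, -, h3⟩ := ht'.1
    have h4 := Int.le_of_dvd (abs_pos.2 h0) ((dvd_abs _ _).2 (hQ2 t ht'))
    exact_mod_cast h4.trans h3
  set al : ℤ × ℤ × ℤ → ℕ := fun t => Nat.log 2 ((mx t).natAbs / t.2.2.natAbs) with hal
  have halH : ∀ t ∈ S, al t < Nat.log 2 H + 1 := by
    intro t ht
    obtain ⟨-, -, -, -, -, -, -, h1, h2, h3⟩ := ((hmem t).1 ht).1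
    refine Nat.lt_succ_of_le (Nat.log_mono_right ?_)
    refine (Nat.div_le_self _ _).trans ?_
    have h4 : mx t ≤ H := max_le h1 (max_le h2 h3)
    have h5 : 0 ≤ mx t := (abs_nonneg _).trans (le_max_left _ _)
    have h6 : (((mx t).natAbs : ℕ) : ℤ) ≤ H := by
      rw [Int.natCast_natAbs, abs_of_nonneg h5]; exact h4
    exact_mod_cast h6
  set Φ : ℤ × ℤ × ℤ → (Bool × Bool × ℕ) × ℕ := fun t =>
    ((decide (0 ≤ t.1), decide (0 ≤ t.2.1), Q t), al t) with hΦ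
  set T : Finset ((Bool × Bool × ℕ) × ℕ) :=
    (univ ×ˢ univ ×ˢ Icc 1 H) ×ˢ range (Nat.log 2 H + 1) with hT
  have hmaps : ∀ t ∈ S, Φ t ∈ T := by
    intro t ht
    simp only [hΦ, hT, mem_product, mem_univ, true_and, mem_range]
    exact ⟨hQH t ht, halH t ht⟩
  rw [card_eq_sum_card_fiberwise hmaps]
  push_cast
  -- the fibres
  have hfib : ∀ k ∈ T, ((#{t ∈ S | Φ t = k} : ℕ) : ℝ) ≤
      1 / (rad k.1.2.2 : ℝ) * (C2 * (H : ℝ) ^ δ * (2 * Z)) := by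
    rintro ⟨⟨b1, b2, q⟩, a⟩ hk
    simp only [hT, mem_product, mem_univ, true_and, mem_Icc, mem_range] at hk
    have : NeZero q := ⟨by omega⟩
    have hq1 : (1 : ℝ) ≤ q := by exact_mod_cast hk.1.1
    set u : (ZMod q)ˣ := if b1 = b2 then -1 else 1 with hu
    have hg := hG1 H q (TT a) hH hk.1.2 u
    set F := ((Finset.Icc 1 H) ×ˢ (Finset.Icc 1 H)).filter
      (fun t => ((t.1 : ℕ) : ZMod q) = u * ((t.2 : ℕ) : ZMod q) ∧ IsUnit ((t.1 : ℕ) : ZMod q) ∧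
        (TT a : ℝ) * |Real.log t.1 - Real.log t.2| ≤ 2)
      with hF
    set g : ℕ × ℕ → ℝ := fun t => 1 / Real.sqrt (w5 ((q : ℝ) * ((TT a : ℝ) + 1)) (rad t.1) *
      w5 ((q : ℝ) * ((TT a : ℝ) + 1)) (rad t.2)) with hgdef
    have hg0 : ∀ t, 0 ≤ g t := fun t => by simp only [hgdef]; positivity
    set ψ : ℤ × ℤ × ℤ → ℕ × ℕ := fun t => (t.1.natAbs, t.2.1.natAbs) with hψ
    -- description of the elements of the fibre
    have hel : ∀ t ∈ ({t ∈ S | Φ t = ((b1, b2, q), a)} : Finset (ℤ × ℤ × ℤ)),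
        t ∈ SE2 H Z ∧ t.1 = sg b1 * (t.1.natAbs : ℤ) ∧ t.2.1 = sg b2 * (t.2.1.natAbs : ℤ) ∧
        Q t = q ∧ al t = a := by
      intro t ht
      rw [mem_filter] at ht
      obtain ⟨h1, h2⟩ := ht
      simp only [hΦ, Prod.mk.injEq] at h2
      obtain ⟨⟨h3, h4, h5⟩, h6⟩ := h2
      refine ⟨(hmem t).1 h1, ?_, ?_, h5, h6⟩
      · rw [← h3]; exact sg_natAbs t.1
      · rw [← h4]; exact sg_natAbs t.2.1
    have hinj : Set.InjOn ψ ({t ∈ S | Φ t = ((b1, b2, q), a)} : Finset (ℤ × ℤ × ℤ)) := by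
      intro t ht s hs hts
      obtain ⟨h1, h2, h3, -⟩ := hel t (by exact_mod_cast ht)
      obtain ⟨g1, g2, g3, -⟩ := hel s (by exact_mod_cast hs)
      simp only [hψ, Prod.mk.injEq] at hts
      have e1 : t.1 = s.1 := by rw [h2, g2, hts.1]
      have e2 : t.2.1 = s.2.1 := by rw [h3, g3, hts.2]
      obtain ⟨-, -, -, -, -, -, z1, -⟩ := h1.1
      obtain ⟨-, -, -, -, -, -, z2, -⟩ := g1.1
      have e3 : t.2.2 = s.2.2 := by linarith
      exact Prod.ext e1 (Prod.ext e2 e3)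
    have hsub : ∀ t ∈ ({t ∈ S | Φ t = ((b1, b2, q), a)} : Finset (ℤ × ℤ × ℤ)), ψ t ∈ F := by
      intro t ht
      obtain ⟨h1, h2, h3, h4, h5⟩ := hel t ht
      obtain ⟨z1, z2, z3, c1, c2, c3, sum0, l1, l2, l3⟩ := h1.1
      rw [hF, mem_filter, mem_product]
      refine ⟨⟨natAbs_mem z1 l1, natAbs_mem z2 l2⟩, ?_, ?_, ?_⟩
      · simp only [hψ]
        refine rel (b1 := b1) (b2 := b2) ?_
        rw [← h2, ← h3]
        have e1 : ((t.2.2 : ℤ) : ZMod q) = 0 := by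
          rw [ZMod.intCast_zmod_eq_zero_iff_dvd, ← h4]
          exact hQ2 t h1
        have e2 : ((t.1 + t.2.1 + t.2.2 : ℤ) : ZMod q) = 0 := by rw [sum0]; simp
        push_cast at e2
        rwa [e1, add_zero] at e2
      · simp only [hψ]
        rw [ZMod.isUnit_iff_coprime]
        have e1 : IsCoprime t.1 (q : ℤ) := by
          refine IsCoprime.of_isCoprime_of_dvd_right c2 ?_
          rw [← h4]; exact hQ2 t h1
        have e2 := Int.isCoprime_iff_gcd_eq_one.1 e1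
        rwa [Int.gcd, Int.natAbs_natCast] at e2
      · have h6 := (cell z1 z2 z3 sum0).1
        rw [← h5]
        exact h6
    have hw : ∀ t ∈ ({t ∈ S | Φ t = ((b1, b2, q), a)} : Finset (ℤ × ℤ × ℤ)),
        (1 : ℝ) ≤ 1 / (rad q : ℝ) * (g (ψ t) * (2 * Z)) := by
      intro t ht
      obtain ⟨h1, h2, h3, h4, h5⟩ := hel t ht
      obtain ⟨z1, z2, z3, c1, c2, c3, sum0, l1, l2, l3⟩ := h1.1
      have h6 := hQ3 t h1
      rw [h4] at h6
      have hcell := (cell z1 z2 z3 sum0).2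
      have h7 : (mx t : ℝ) / |(t.2.2 : ℝ)| ≤ 2 * ((TT a : ℝ) + 1) := by
        rw [← h5]; exact hcell.1
      have h8 : 1 ≤ (mx t : ℝ) / |(t.2.2 : ℝ)| := hcell.2
      obtain ⟨Q1, hQ1d⟩ : ∃ Q1 : ℝ, Q1 = (q : ℝ) * (mx t : ℝ) / |(t.2.2 : ℝ)| := ⟨_, rfl⟩
      obtain ⟨Q2, hQ2d⟩ : ∃ Q2 : ℝ, Q2 = (q : ℝ) * ((TT a : ℝ) + 1) := ⟨_, rfl⟩
      have hQ1e : Q1 = (q : ℝ) * ((mx t : ℝ) / |(t.2.2 : ℝ)|) := by rw [hQ1d, mul_div_assoc]
      have hQ11 : 1 ≤ Q1 := by rw [hQ1e]; exact one_le_mul_of_one_le_of_one_le hq1 h8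
      have hTT0 : (0 : ℝ) ≤ (TT a : ℝ) := Nat.cast_nonneg _
      have hQ21 : 1 ≤ Q2 := by
        rw [hQ2d]; exact one_le_mul_of_one_le_of_one_le hq1 (by linarith)
      have hQ12 : Q1 ≤ 2 * Q2 := by
        rw [hQ1e, hQ2d]
        have := mul_le_mul_of_nonneg_left h7 (by linarith : (0 : ℝ) ≤ q)
        linarith
      have hcmp : ∀ R : ℝ, 1 ≤ R → w5 Q2 R ≤ 2 * w5 Q1 R := by
        intro R hR
        have h9 := hW4 Q2 R hQ21 hR
        have h10 := hW3 Q1 (2 * Q2) R hQ11 hR hQ12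
        linarith
      rw [← hQ1d] at h6
      have hR1 : (1 : ℝ) ≤ RR t.1 := rad_one_le _
      have hR2 : (1 : ℝ) ≤ RR t.2.1 := rad_one_le _
      have hp1 := hwpos Q1 _ hQ11 hR1
      have hp2 := hwpos Q1 _ hQ11 hR2
      have hp3 := hwpos Q2 _ hQ21 hR1
      have hp4 := hwpos Q2 _ hQ21 hR2
      have hsq : Real.sqrt (w5 Q2 (RR t.1) * w5 Q2 (RR t.2.1)) ≤
          2 * Real.sqrt (w5 Q1 (RR t.1) * w5 Q1 (RR t.2.1)) := by
        have h11 : w5 Q2 (RR t.1) * w5 Q2 (RR t.2.1) ≤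
            2 ^ 2 * (w5 Q1 (RR t.1) * w5 Q1 (RR t.2.1)) := by
          calc w5 Q2 (RR t.1) * w5 Q2 (RR t.2.1)
              ≤ (2 * w5 Q1 (RR t.1)) * (2 * w5 Q1 (RR t.2.1)) :=
                mul_le_mul (hcmp _ hR1) (hcmp _ hR2) hp4.le (by positivity)
            _ = _ := by ring
        calc Real.sqrt (w5 Q2 (RR t.1) * w5 Q2 (RR t.2.1))
            ≤ Real.sqrt (2 ^ 2 * (w5 Q1 (RR t.1) * w5 Q1 (RR t.2.1))) := Real.sqrt_le_sqrt h11
          _ = _ := by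
            rw [Real.sqrt_mul (by norm_num), Real.sqrt_sq (by norm_num)]
      have h12 : (0:ℝ) < rad q := by exact_mod_cast rad_pos q
      have h13 : 0 < Real.sqrt (w5 Q2 (RR t.1) * w5 Q2 (RR t.2.1)) :=
        Real.sqrt_pos.2 (mul_pos hp3 hp4)
      have e : 1 / (rad q : ℝ) * (g (ψ t) * (2 * Z)) =
          (2 * Z) / ((rad q : ℝ) * Real.sqrt (w5 Q2 (RR t.1) * w5 Q2 (RR t.2.1))) := by
        simp only [hgdef, hψ, RR, hQ2d]
        rw [one_div_mul_eq_div, one_div_mul_eq_div, div_div, mul_comm (Real.sqrt _)]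
      rw [e, one_le_div (mul_pos h12 h13)]
      have h14 := mul_le_mul_of_nonneg_left hsq h12.le
      linarith
    have hr0 : (0:ℝ) ≤ 1 / (rad q : ℝ) := by positivity
    have hZ2 : 0 ≤ 2 * Z := by linarith
    calc ((#{t ∈ S | Φ t = ((b1, b2, q), a)} : ℕ) : ℝ)
        = ∑ t ∈ S with Φ t = ((b1, b2, q), a), (1 : ℝ) := by simp
      _ ≤ ∑ t ∈ S with Φ t = ((b1, b2, q), a), 1 / (rad q : ℝ) * (g (ψ t) * (2 * Z)) :=
          sum_le_sum hw
      _ = 1 / (rad q : ℝ) * ((∑ t ∈ S with Φ t = ((b1, b2, q), a), g (ψ t)) * (2 * Z)) := by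
          rw [sum_mul, mul_sum]
      _ = 1 / (rad q : ℝ) *
            ((∑ s ∈ image ψ {t ∈ S | Φ t = ((b1, b2, q), a)}, g s) * (2 * Z)) := by
          rw [sum_image hinj]
      _ ≤ 1 / (rad q : ℝ) * ((∑ s ∈ F, g s) * (2 * Z)) := by
          refine mul_le_mul_of_nonneg_left (mul_le_mul_of_nonneg_right ?_ hZ2) hr0
          exact sum_le_sum_of_subset_of_nonneg (image_subset_iff.2 hsub) fun s _ _ => hg0 s
      _ ≤ 1 / (rad q : ℝ) * (C2 * (H : ℝ) ^ δ * (2 * Z)) :=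
          mul_le_mul_of_nonneg_left (mul_le_mul_of_nonneg_right hg hZ2) hr0
  refine (sum_le_sum hfib).trans ?_
  rw [← sum_mul, hT]
  simp only [sum_product, sum_const, card_univ, Fintype.card_bool, nsmul_eq_mul, card_range]
  have hH0 : (0:ℝ) < H := by exact_mod_cast hH
  have h1 := hA1 H hH
  have e : (H : ℝ) ^ ε = (H : ℝ) ^ δ * (H : ℝ) ^ δ * (H : ℝ) ^ δ := by
    rw [← Real.rpow_add hH0, ← Real.rpow_add hH0]; congr 1; rw [hδ]; ring
  rw [e]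
  have hL := Pool.Agent.H74.AE.J3.log_bound hδ0 hH
  rw [← hCL] at hL
  have hs0 : 0 ≤ ∑ n ∈ Icc 1 H, (1 : ℝ) / (rad n : ℝ) := sum_nonneg fun n _ => by positivity
  have h2 : ((Nat.log 2 H + 1 : ℕ) : ℝ) * (∑ n ∈ Icc 1 H, (1 : ℝ) / (rad n : ℝ)) ≤
      (CL * (H : ℝ) ^ δ) * (C1 * (H : ℝ) ^ δ) := mul_le_mul hL h1 hs0 (by positivity)
  have h3 : 0 ≤ C2 * (H : ℝ) ^ δ * (2 * Z) := by positivity
  have h4 := mul_le_mul_of_nonneg_right h2 h3
  rw [← mul_sum]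
  push_cast at h4 ⊢
  nlinarith [h4]

end Pool.Agent.H20.AF
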