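import Pool.Agent.H23.AF.Targets
import Pool.Agent.H74.AE.J3

/-!
# af_modules JQ: triples whose first two entries are nearly powers with the same exponent
-/

set_option autoImplicit false

namespace Pool.Agent.H20.AF

open Pool.Agent.H38.AE Pool.Agent.H23.AF Pool.Agent.H74.AE.J3

theorem coprime_of_pow {a b : ℤ} {X Y : ℤ} {g : ℕ} (hg : 2 ≤ g)
    (h : IsCoprime (a * X ^ g) (b * Y ^ g)) : IsCoprime (a * X) (b * Y) := by
  obtain ⟨k, rfl⟩ : ∃ k, g = k + 1 := ⟨g - 1, by omega⟩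
  refine h.of_isCoprime_of_dvd_left ?_ |>.of_isCoprime_of_dvd_right ?_
  · exact mul_dvd_mul_left a (dvd_pow_self X (Nat.succ_ne_zero k))
  · exact mul_dvd_mul_left b (dvd_pow_self Y (Nat.succ_ne_zero k))

/-- JQ -/
theorem pf_JQ (hA : T_A) (hQ : T_QL) : T_JQ := by
  classical
  intro K ε hε
  obtain ⟨δ, hδ⟩ : ∃ δ : ℝ, δ = ε / 4 := ⟨_, rfl⟩
  have hδ0 : 0 < δ := by rw [hδ]; linarith
  obtain ⟨CA, hCA, hA⟩ := hA δ hδ0
  have hex : ∀ g : ℕ, 2 ≤ g → ∃ C : ℝ, 0 < C ∧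
      ∀ (N : ℕ) (a b E : ℤ), 1 ≤ N → a ≠ 0 → b ≠ 0 → E ≠ 0 → |E| ≤ N →
      (((Finset.Icc 1 N ×ˢ Finset.Icc 1 N).filter
        (fun t => a * (t.1 : ℤ) ^ g + b * (t.2 : ℤ) ^ g = E ∧ |a * (t.1 : ℤ) ^ g| ≤ N ∧
          |b * (t.2 : ℤ) ^ g| ≤ N ∧ IsCoprime (a * (t.1 : ℤ)) (b * (t.2 : ℤ)))).card : ℝ) ≤
        C * (N : ℝ) ^ δ := fun g hg => hQ g δ hg hδ0
  choose! C0 hC0 hC using hex
  obtain ⟨CE, hCE⟩ : ∃ CE : ℝ, CE = ∑ x ∈ Finset.Icc 2 K, C0 x := ⟨_, rfl⟩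
  have hCE0 : 0 ≤ CE := by
    rw [hCE]
    refine Finset.sum_nonneg fun x hx => ?_
    rw [Finset.mem_Icc] at hx
    exact (hC0 _ hx.1).le
  refine ⟨(CE + 1) * (2 * CA) ^ 3, by positivity, fun H Z hH hZ => ?_⟩
  have hH0 : (0 : ℝ) < H := by exact_mod_cast hH
  obtain ⟨S, hS⟩ : ∃ S : ℝ, S = ∑ a ∈ Az H, 1 / RR a := ⟨_, rfl⟩
  have hS1 : S ≤ 2 * CA * (H : ℝ) ^ δ := by
    rw [hS]
    refine (sum_Az H).trans ?_
    have := hA H hH
    linarith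
  have hS0 : 0 ≤ S := by
    rw [hS]
    exact Finset.sum_nonneg fun a _ => (one_div_pos.2 (RR_pos a)).le
  -- the families
  let I1 : Finset ℕ := Finset.Icc 2 K
  let I2 : Finset (ℤ × (ℤ × ℤ)) := (Az H) ×ˢ ((Az H) ×ˢ (Az H))
  let F : ℕ × (ℤ × (ℤ × ℤ)) → Finset (ℤ × ℤ × ℤ) := fun w =>
    if RR w.2.1 * RR w.2.2.1 * RR w.2.2.2 ≤ Z then
      ((Finset.Icc 1 H ×ˢ Finset.Icc 1 H).filter
        (fun t : ℕ × ℕ => w.2.1 * (t.1 : ℤ) ^ w.1 + w.2.2.1 * (t.2 : ℤ) ^ w.1 = -w.2.2.2 ∧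
          |w.2.1 * (t.1 : ℤ) ^ w.1| ≤ H ∧ |w.2.2.1 * (t.2 : ℤ) ^ w.1| ≤ H ∧
          IsCoprime (w.2.1 * (t.1 : ℤ)) (w.2.2.1 * (t.2 : ℤ)))).image
        (fun t => (w.2.1 * (t.1 : ℤ) ^ w.1, w.2.2.1 * (t.2 : ℤ) ^ w.1, w.2.2.2))
    else ∅
  have hcover : SQ H Z K ⊆ ((I1 ×ˢ I2).biUnion F : Finset (ℤ × ℤ × ℤ)) := by
    rintro ⟨x, y, c⟩ ⟨hT, a, b, p, r, g, hp, hr, hg, hgK, hx, hy, hZZ⟩
    obtain ⟨hx0, hy0, hc0, hxy, -, -, hsum, hxH, hyH, hcH⟩ := hT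
    simp only at hx0 hy0 hc0 hxy hsum hxH hyH hcH hx hy hZZ
    have hpow : ∀ (u : ℤ) (v g : ℕ), 1 ≤ v → 1 ≤ g → u * (v : ℤ) ^ g ≠ 0 →
        |u * (v : ℤ) ^ g| ≤ H → u ∈ Az H ∧ v ≤ H := by
      intro u v g hv hg hne hle
      have hu : u ≠ 0 := left_ne_zero_of_mul hne
      rw [abs_mul, abs_of_nonneg (by positivity : (0 : ℤ) ≤ (v : ℤ) ^ g)] at hle
      have h1 : (1 : ℤ) ≤ |u| := Int.one_le_abs hu
      have h2 : (v : ℤ) ≤ (v : ℤ) ^ g := le_self_pow₀ (by exact_mod_cast hv) (by omega)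
      have hv1 : (1 : ℤ) ≤ v := by exact_mod_cast hv
      refine ⟨mem_Az.2 ⟨?_, hu⟩, ?_⟩
      · nlinarith
      · have : (v : ℤ) ≤ H := by nlinarith
        exact_mod_cast this
    obtain ⟨haA, hpH⟩ := hpow a p g hp (by omega) (hx ▸ hx0) (hx ▸ hxH)
    obtain ⟨hbA, hrH⟩ := hpow b r g hr (by omega) (hy ▸ hy0) (hy ▸ hyH)
    have hcA : c ∈ Az H := mem_Az.2 ⟨hcH, hc0⟩
    rw [Finset.mem_coe, Finset.mem_biUnion]
    refine ⟨(g, (a, (b, c))), ?_, ?_⟩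
    · simp only [I1, I2, Finset.mem_product, Finset.mem_Icc]
      exact ⟨⟨hg, hgK⟩, haA, hbA, hcA⟩
    · simp only [F]
      rw [if_pos hZZ, Finset.mem_image]
      refine ⟨(p, r), ?_, ?_⟩
      · rw [Finset.mem_filter, Finset.mem_product, Finset.mem_Icc, Finset.mem_Icc]
        refine ⟨⟨⟨hp, hpH⟩, ⟨hr, hrH⟩⟩, ?_, ?_, ?_, ?_⟩
        · simp only
          rw [← hx, ← hy]
          linarith
        · exact hx ▸ hxH
        · exact hy ▸ hyH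
        · refine coprime_of_pow hg ?_
          simp only
          rw [← hx, ← hy]
          exact hxy
      · simp only
        rw [← hx, ← hy]
  have hbound : ∀ w ∈ I1 ×ˢ I2, ((F w).card : ℝ) ≤
      C0 w.1 * (1 / RR w.2.1 * (1 / RR w.2.2.1 * (1 / RR w.2.2.2))) * ((H : ℝ) ^ δ * Z) := by
    rintro ⟨g, ⟨a, b, c⟩⟩ hw
    simp only [I1, I2, Finset.mem_product, Finset.mem_Icc] at hw
    obtain ⟨⟨hg, -⟩, ha, hb, hc⟩ := hw
    rw [mem_Az] at ha hb hc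
    have hCef := hC0 g hg
    have hRa := RR_pos a
    have hRb := RR_pos b
    have hRc := RR_pos c
    simp only [F]
    split_ifs with hcond
    · refine le_trans (Nat.cast_le.2 Finset.card_image_le) ?_
      have h1 := hC g hg H a b (-c) hH ha.2 hb.2 (neg_ne_zero.2 hc.2)
        (by rw [abs_neg]; exact hc.1)
      refine h1.trans ?_
      have h4 : 1 ≤ 1 / RR a * (1 / RR b * (1 / RR c)) * Z := by
        have h5 : 1 / RR a * (1 / RR b * (1 / RR c)) * Z = Z / (RR a * RR b * RR c) := by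
          field_simp
        rw [h5, le_div_iff₀ (by positivity)]
        linarith
      calc C0 g * (H : ℝ) ^ δ = C0 g * (H : ℝ) ^ δ * 1 := (mul_one _).symm
        _ ≤ C0 g * (H : ℝ) ^ δ * (1 / RR a * (1 / RR b * (1 / RR c)) * Z) := by gcongr
        _ = _ := by ring
    · simp only [Finset.card_empty, Nat.cast_zero]
      positivity
  calc ((SQ H Z K).ncard : ℝ)
      ≤ (((I1 ×ˢ I2).biUnion F : Finset (ℤ × ℤ × ℤ)).card : ℝ) := by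
        rw [← Set.ncard_coe_finset]
        exact_mod_cast Set.ncard_le_ncard hcover (Finset.finite_toSet _)
    _ ≤ ∑ w ∈ I1 ×ˢ I2, ((F w).card : ℝ) := by exact_mod_cast Finset.card_biUnion_le
    _ ≤ ∑ w ∈ I1 ×ˢ I2, C0 w.1 *
          (1 / RR w.2.1 * (1 / RR w.2.2.1 * (1 / RR w.2.2.2))) *
            ((H : ℝ) ^ δ * Z) := Finset.sum_le_sum hbound
    _ = CE * (S * (S * S)) * ((H : ℝ) ^ δ * Z) := by
        rw [← Finset.sum_mul]
        congr 1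
        have e1 := sum_prod_mul I1 I2 (fun x => C0 x)
          (fun y => 1 / RR y.1 * (1 / RR y.2.1 * (1 / RR y.2.2)))
        rw [e1]
        have e3 := sum_prod_mul (Az H) ((Az H) ×ˢ (Az H)) (fun a => 1 / RR a)
          (fun y => 1 / RR y.1 * (1 / RR y.2))
        have e4 := sum_prod_mul (Az H) (Az H) (fun a => 1 / RR a) (fun a => 1 / RR a)
        simp only [I1, I2]
        rw [e3, e4, ← hS, ← hCE]
    _ ≤ CE * ((2 * CA * (H : ℝ) ^ δ) * ((2 * CA * (H : ℝ) ^ δ) * (2 * CA * (H : ℝ) ^ δ))) *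
            ((H : ℝ) ^ δ * Z) := by gcongr
    _ = CE * (2 * CA) ^ 3 * ((H : ℝ) ^ δ) ^ 4 * Z := by ring
    _ ≤ (CE + 1) * (2 * CA) ^ 3 * ((H : ℝ) ^ δ) ^ 4 * Z := by
        gcongr
        linarith
    _ = _ := by
        have : ((H : ℝ) ^ δ) ^ 4 = (H : ℝ) ^ ε := by
          rw [← Real.rpow_natCast, ← Real.rpow_mul hH0.le, hδ]
          congr 1
          push_cast
          ring
        rw [this]

end Pool.Agent.H20.AF
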