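import Pool.Agent.H23.AF.Targets
import Pool.Agent.H74.AE.J3

/-!
# af_modules QL: few coprime points on `a x ^ g + b y ^ g = E`
-/

set_option autoImplicit false

open Finset

namespace Pool.Agent.H20.AF

open Pool.Agent.H38.AE Pool.Agent.H23.AF

theorem sub_mul_pow_le {u v : ℤ} (hu : 0 ≤ u) (hv : 0 ≤ v) (h : ℕ) :
    |u - v| * u ^ h ≤ |u ^ (h + 1) - v ^ (h + 1)| := by
  rcases le_total v u with hvu | huv
  · rw [abs_of_nonneg (by linarith : (0 : ℤ) ≤ u - v)]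
    refine le_trans ?_ (le_abs_self _)
    have h1 : v ^ h ≤ u ^ h := pow_le_pow_left₀ hv hvu h
    have h2 := mul_le_mul_of_nonneg_left h1 hv
    rw [pow_succ, pow_succ]
    nlinarith
  · rw [abs_sub_comm, abs_of_nonneg (by linarith : (0 : ℤ) ≤ v - u), abs_sub_comm]
    refine le_trans ?_ (le_abs_self _)
    have h1 : u ^ h ≤ v ^ h := pow_le_pow_left₀ hu huv h
    have h2 := mul_le_mul_of_nonneg_left h1 hv
    rw [pow_succ, pow_succ]
    nlinarith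

theorem dB {h : ℕ} {a b E X Y X0 Y0 : ℤ} (hX : 0 < X) (hY : 0 < Y) (hX0 : 0 < X0) (hY0 : 0 < Y0)
    (hY1 : Y < 2 * Y0) (hY2 : Y0 < 2 * Y) (e : a * X ^ (h + 1) + b * Y ^ (h + 1) = E)
    (e0 : a * X0 ^ (h + 1) + b * Y0 ^ (h + 1) = E) (hc : X0 * Y0 ≤ |a| * X0 ^ (h + 1)) :
    |X0 * Y - X * Y0| ≤ 4 ^ (h + 1) * |E| := by
  have h1 := sub_mul_pow_le (mul_pos hX0 hY).le (mul_pos hX hY0).le h
  have key : a * ((X0 * Y) ^ (h + 1) - (X * Y0) ^ (h + 1)) = E * (Y ^ (h + 1) - Y0 ^ (h + 1)) := by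
    rw [mul_pow, mul_pow]
    linear_combination (Y ^ (h + 1)) * e0 - (Y0 ^ (h + 1)) * e
  have key2 : |a| * |(X0 * Y) ^ (h + 1) - (X * Y0) ^ (h + 1)| =
      |E| * |Y ^ (h + 1) - Y0 ^ (h + 1)| := by
    rw [← abs_mul, ← abs_mul, key]
  have h2 : |Y ^ (h + 1) - Y0 ^ (h + 1)| ≤ (2 * Y0) ^ (h + 1) := by
    have h3 : Y ^ (h + 1) ≤ (2 * Y0) ^ (h + 1) := pow_le_pow_left₀ hY.le hY1.le _
    have h4 : Y0 ^ (h + 1) ≤ (2 * Y0) ^ (h + 1) := pow_le_pow_left₀ hY0.le (by linarith) _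
    have h5 : 0 < Y ^ (h + 1) := pow_pos hY _
    have h6 : 0 < Y0 ^ (h + 1) := pow_pos hY0 _
    rw [abs_le]
    constructor <;> linarith
  obtain ⟨D, hD⟩ : ∃ D : ℤ, D = |X0 * Y - X * Y0| := ⟨_, rfl⟩
  rw [← hD] at h1 ⊢
  have hD0 : 0 ≤ D := by rw [hD]; exact abs_nonneg _
  have ha0 : 0 ≤ |a| := abs_nonneg a
  have hE0 : 0 ≤ |E| := abs_nonneg E
  have h7 : |a| * (D * (X0 * Y) ^ h) ≤ |E| * (2 * Y0) ^ (h + 1) := by
    calc |a| * (D * (X0 * Y) ^ h) ≤ |a| * |(X0 * Y) ^ (h + 1) - (X * Y0) ^ (h + 1)| :=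
          mul_le_mul_of_nonneg_left h1 ha0
      _ = |E| * |Y ^ (h + 1) - Y0 ^ (h + 1)| := key2
      _ ≤ _ := mul_le_mul_of_nonneg_left h2 hE0
  have h8 : (X0 * Y0) ^ h ≤ 2 ^ h * (X0 * Y) ^ h := by
    rw [← mul_pow]
    refine pow_le_pow_left₀ (mul_pos hX0 hY0).le ?_ h
    nlinarith
  have h9 : Y0 ≤ |a| * X0 ^ h := by
    have : X0 * Y0 ≤ X0 * (|a| * X0 ^ h) := by
      calc X0 * Y0 ≤ |a| * X0 ^ (h + 1) := hc
        _ = X0 * (|a| * X0 ^ h) := by ring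
    exact le_of_mul_le_mul_left this hX0
  have hYh : 0 < Y0 ^ h := pow_pos hY0 h
  have hYh1 : 0 < Y0 ^ (h + 1) := pow_pos hY0 _
  have h10 : D * Y0 ^ (h + 1) ≤ 2 ^ h * (2 ^ (h + 1) * |E|) * Y0 ^ (h + 1) := by
    calc D * Y0 ^ (h + 1) = D * Y0 ^ h * Y0 := by ring
      _ ≤ D * Y0 ^ h * (|a| * X0 ^ h) := mul_le_mul_of_nonneg_left h9 (by positivity)
      _ = |a| * D * (X0 * Y0) ^ h := by rw [mul_pow]; ring
      _ ≤ |a| * D * (2 ^ h * (X0 * Y) ^ h) := mul_le_mul_of_nonneg_left h8 (by positivity)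
      _ = 2 ^ h * (|a| * (D * (X0 * Y) ^ h)) := by ring
      _ ≤ 2 ^ h * (|E| * (2 * Y0) ^ (h + 1)) := mul_le_mul_of_nonneg_left h7 (by positivity)
      _ = _ := by rw [mul_pow]; ring
  have h11 := le_of_mul_le_mul_right h10 hYh1
  refine h11.trans ?_
  have h12 : (2 : ℤ) ^ h * (2 ^ (h + 1) * |E|) ≤ 2 ^ (h + 1) * (2 ^ (h + 1) * |E|) := by
    refine mul_le_mul_of_nonneg_right ?_ (by positivity)
    exact pow_le_pow_right₀ (by norm_num) (Nat.le_succ h)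
  refine h12.trans (le_of_eq ?_)
  rw [← mul_assoc, ← mul_pow]
  norm_num

theorem dbound {g : ℕ} (hg : 2 ≤ g) {a b E X Y X0 Y0 : ℤ} (ha : a ≠ 0) (hb : b ≠ 0)
    (hX : 0 < X) (hY : 0 < Y) (hX0 : 0 < X0) (hY0 : 0 < Y0) (hX1 : X < 2 * X0)
    (hX2 : X0 < 2 * X) (hY1 : Y < 2 * Y0) (hY2 : Y0 < 2 * Y) (e : a * X ^ g + b * Y ^ g = E)
    (e0 : a * X0 ^ g + b * Y0 ^ g = E) : |X0 * Y - X * Y0| ≤ 4 ^ g * |E| := by
  obtain ⟨h, rfl⟩ : ∃ h, g = h + 1 := ⟨g - 1, by omega⟩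
  obtain ⟨m, hm⟩ : ∃ m : ℤ, m = max |E| (max (|a| * X0 ^ (h + 1)) (|b| * Y0 ^ (h + 1))) :=
    ⟨_, rfl⟩
  have hP1 : 1 ≤ X0 * Y0 := by nlinarith
  have ha1 : 1 ≤ |a| := Int.one_le_abs ha
  have hb1 : 1 ≤ |b| := Int.one_le_abs hb
  have hm1 : |a| * X0 ^ (h + 1) ≤ m := by rw [hm]; exact (le_max_left _ _).trans (le_max_right _ _)
  have hm2 : |b| * Y0 ^ (h + 1) ≤ m := by rw [hm]; exact (le_max_right _ _).trans (le_max_right _ _)
  have hpx : 0 < X0 ^ (h + 1) := pow_pos hX0 _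
  have hpy : 0 < Y0 ^ (h + 1) := pow_pos hY0 _
  have hmm : (X0 * Y0) ^ 2 ≤ m ^ 2 := by
    calc (X0 * Y0) ^ 2 ≤ (X0 * Y0) ^ (h + 1) := pow_le_pow_right₀ hP1 hg
      _ = X0 ^ (h + 1) * Y0 ^ (h + 1) := mul_pow _ _ _
      _ ≤ (|a| * X0 ^ (h + 1)) * (|b| * Y0 ^ (h + 1)) := by
          refine mul_le_mul ?_ ?_ hpy.le (by positivity)
          · nlinarith
          · nlinarith
      _ ≤ m * m := mul_le_mul hm1 hm2 (by positivity) (le_trans (by positivity) hm1)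
      _ = m ^ 2 := (sq m).symm
  have hm0 : 0 ≤ m := le_trans (by positivity) hm1
  have hPm : X0 * Y0 ≤ m := (pow_le_pow_iff_left₀ (by linarith) hm0 (by norm_num)).1 hmm
  rw [hm, le_max_iff, le_max_iff] at hPm
  rcases hPm with h1 | h1 | h1
  · have h2 : |X0 * Y - X * Y0| ≤ 2 * (X0 * Y0) := by
      rw [abs_le]
      constructor <;> nlinarith [mul_pos hX0 hY, mul_pos hX hY0]
    have h3 : (2 : ℤ) ≤ 4 ^ (h + 1) := by
      calc (2 : ℤ) ≤ 4 ^ 1 := by norm_num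
        _ ≤ 4 ^ (h + 1) := pow_le_pow_right₀ (by norm_num) (by omega)
    have h4 := abs_nonneg E
    calc |X0 * Y - X * Y0| ≤ 2 * (X0 * Y0) := h2
      _ ≤ 2 * |E| := by linarith
      _ ≤ 4 ^ (h + 1) * |E| := mul_le_mul_of_nonneg_right h3 h4
  · exact dB hX hY hX0 hY0 hY1 hY2 e e0 h1
  · have h2 := dB (a := b) (b := a) (E := E) hY hX hY0 hX0 hX1 hX2 (by linarith) (by linarith)
      (by linarith)
    have h3 : X0 * Y - X * Y0 = -(Y0 * X - Y * X0) := by ring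
    rw [h3, abs_neg]
    exact h2

theorem log_cmp {x y : ℕ} (_hx : 1 ≤ x) (hy : 1 ≤ y) (h : Nat.log 2 x = Nat.log 2 y) :
    x < 2 * y ∧ x < y + 2 ^ Nat.log 2 y := by
  have h1 : x < 2 ^ (Nat.log 2 x + 1) := Nat.lt_pow_succ_log_self (by norm_num) x
  have h2 : 2 ^ Nat.log 2 y ≤ y := Nat.pow_log_le_self 2 (by omega)
  rw [h, pow_succ] at h1
  omega

/-- the unit of a residue -/
noncomputable def un (q x : ℕ) : (ZMod q)ˣ :=
  open Classical in if h : Nat.Coprime x q then ZMod.unitOfCoprime x h else 1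

theorem un_coe {q x : ℕ} (h : Nat.Coprime x q) : ((un q x : (ZMod q)ˣ) : ZMod q) = (x : ZMod q) := by
  unfold un
  rw [dif_pos h, ZMod.coe_unitOfCoprime]

theorem pf_QL (hC : T_C) : T_QL := by
  classical
  intro g ε hg hε
  obtain ⟨δ, hδ⟩ : ∃ δ : ℝ, δ = ε / 3 := ⟨_, rfl⟩
  have hδ0 : 0 < δ := by rw [hδ]; linarith
  obtain ⟨C1, hC1, hC⟩ := hC g δ (by omega) hδ0
  obtain ⟨CL, hCL⟩ : ∃ CL : ℝ, CL = 1 + 1 / (δ * Real.log 2) := ⟨_, rfl⟩
  have hCL0 : 0 < CL := by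
    have : 0 < Real.log 2 := Real.log_pos (by norm_num)
    rw [hCL]; positivity
  refine ⟨(2 * 4 ^ g + 1) * (C1 * (CL * CL)), by positivity, fun N a b E hN ha hb hE hEN => ?_⟩
  set S := (Finset.Icc 1 N ×ˢ Finset.Icc 1 N).filter
    (fun t => a * (t.1 : ℤ) ^ g + b * (t.2 : ℤ) ^ g = E ∧ |a * (t.1 : ℤ) ^ g| ≤ N ∧
      |b * (t.2 : ℤ) ^ g| ≤ N ∧ IsCoprime (a * (t.1 : ℤ)) (b * (t.2 : ℤ))) with hS
  have hN0 : (0 : ℝ) < N := by exact_mod_cast hN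
  obtain ⟨q, hq⟩ : ∃ q : ℕ, q = E.natAbs := ⟨_, rfl⟩
  have hq1 : 1 ≤ q := by rw [hq]; exact Int.natAbs_pos.2 hE
  have hqE : (q : ℤ) = |E| := by rw [hq, Int.natCast_natAbs]
  have hqN : q ≤ N := by
    have : (q : ℤ) ≤ N := by rw [hqE]; exact hEN
    exact_mod_cast this
  have hne : NeZero q := ⟨by omega⟩
  -- properties of the solutions
  have hsol : ∀ t ∈ S, 1 ≤ t.1 ∧ t.1 ≤ N ∧ 1 ≤ t.2 ∧ t.2 ≤ N ∧
      a * (t.1 : ℤ) ^ g + b * (t.2 : ℤ) ^ g = E ∧ IsCoprime (t.1 : ℤ) (t.2 : ℤ) ∧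
      Nat.Coprime t.1 q ∧ Nat.Coprime t.2 q ∧ IsCoprime a E := by
    intro t ht
    rw [hS, mem_filter, mem_product, mem_Icc, mem_Icc] at ht
    obtain ⟨⟨⟨h1, h2⟩, ⟨h3, h4⟩⟩, h5, -, -, h6⟩ := ht
    have hcop : ∀ x : ℤ, IsCoprime x E → Nat.Coprime x.natAbs q := by
      intro x hx
      rw [hq]
      exact Int.isCoprime_iff_gcd_eq_one.1 hx
    have c1 : IsCoprime (a * (t.1 : ℤ)) (b * (t.2 : ℤ) ^ g) := by
      have e1 : IsCoprime (a * (t.1 : ℤ)) b := h6.of_mul_right_left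
      have e2 : IsCoprime (a * (t.1 : ℤ)) ((t.2 : ℤ) ^ g) := (h6.of_mul_right_right).pow_right
      exact e1.mul_right e2
    have c2 : IsCoprime (b * (t.2 : ℤ)) (a * (t.1 : ℤ) ^ g) := by
      have e1 : IsCoprime (b * (t.2 : ℤ)) a := h6.symm.of_mul_right_left
      have e2 : IsCoprime (b * (t.2 : ℤ)) ((t.1 : ℤ) ^ g) := (h6.symm.of_mul_right_right).pow_right
      exact e1.mul_right e2
    obtain ⟨g', hg'⟩ : ∃ g', g = g' + 1 := ⟨g - 1, by omega⟩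
    -- a and t.1 are coprime to E
    have d1 : IsCoprime (a * (t.1 : ℤ)) E := by
      have e1 : E = b * (t.2 : ℤ) ^ g + (a * (t.1 : ℤ)) * (t.1 : ℤ) ^ g' := by
        rw [← h5, hg', pow_succ]; ring
      rw [e1]
      exact IsCoprime.add_mul_left_right c1 _
    have d2 : IsCoprime (b * (t.2 : ℤ)) E := by
      have e1 : E = a * (t.1 : ℤ) ^ g + (b * (t.2 : ℤ)) * (t.2 : ℤ) ^ g' := by
        rw [← h5, hg', pow_succ]; ring
      rw [e1]
      exact IsCoprime.add_mul_left_right c2 _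
    refine ⟨h1, h2, h3, h4, h5, ?_, ?_, ?_, d1.of_mul_left_left⟩
    · exact (h6.of_mul_left_right).of_mul_right_right
    · have := hcop _ d1.of_mul_left_right
      rwa [Int.natAbs_natCast] at this
    · have := hcop _ d2.of_mul_left_right
      rwa [Int.natAbs_natCast] at this
  by_cases hSe : S = ∅
  · rw [hSe, card_empty, Nat.cast_zero]
    positivity
  obtain ⟨t0, ht0⟩ := nonempty_iff_ne_empty.2 hSe
  -- the classes
  set Φ : ℕ × ℕ → (ZMod q)ˣ × (ℕ × ℕ) := fun t =>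
    (un q t.1 * (un q t.2)⁻¹ * (un q t0.2 * (un q t0.1)⁻¹), (Nat.log 2 t.1, Nat.log 2 t.2)) with hΦ
  set T : Finset ((ZMod q)ˣ × (ℕ × ℕ)) :=
    ((univ : Finset (ZMod q)ˣ).filter (fun u => u ^ g = 1)) ×ˢ
      (range (Nat.log 2 N + 1) ×ˢ range (Nat.log 2 N + 1)) with hT
  have hpow : ∀ t ∈ S, (a : ZMod q) * ((un q t.1 : (ZMod q)ˣ) : ZMod q) ^ g =
      - (b : ZMod q) * ((un q t.2 : (ZMod q)ˣ) : ZMod q) ^ g := by
    intro t ht
    obtain ⟨-, -, -, -, h5, -, h7, h8, -⟩ := hsol t ht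
    rw [un_coe h7, un_coe h8]
    have e1 : ((a * (t.1 : ℤ) ^ g + b * (t.2 : ℤ) ^ g : ℤ) : ZMod q) = 0 := by
      rw [h5, ZMod.intCast_zmod_eq_zero_iff_dvd, hqE]
      exact (abs_dvd E E).2 dvd_rfl
    push_cast at e1
    linear_combination e1
  have haU : IsUnit (a : ZMod q) := by
    obtain ⟨-, -, -, -, -, -, -, -, h9⟩ := hsol t0 ht0
    have h10 : IsCoprime a (q : ℤ) := by
      rw [hqE]
      exact (IsCoprime.abs_right_iff a E).2 h9
    obtain ⟨u, v, huv⟩ := h10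
    have h11 := congrArg (Int.cast : ℤ → ZMod q) huv
    push_cast at h11
    rw [ZMod.natCast_self, mul_zero, add_zero] at h11
    exact IsUnit.of_mul_eq_one _ (by rw [mul_comm]; exact h11)
  have hroot : ∀ t ∈ S, (un q t.1 * (un q t.2)⁻¹ * (un q t0.2 * (un q t0.1)⁻¹)) ^ g = 1 := by
    intro t ht
    have e1 := hpow t ht
    have e2 := hpow t0 ht0
    have e3 : (un q t.1 : (ZMod q)ˣ) ^ g * (un q t0.2) ^ g = (un q t.2) ^ g * (un q t0.1) ^ g := by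
      apply Units.ext
      push_cast
      apply haU.mul_left_cancel
      linear_combination ((un q t0.2 : (ZMod q)ˣ) : ZMod q) ^ g * e1 -
        ((un q t.2 : (ZMod q)ˣ) : ZMod q) ^ g * e2
    rw [mul_pow, mul_pow, mul_pow, inv_pow, inv_pow]
    calc (un q t.1) ^ g * ((un q t.2) ^ g)⁻¹ * ((un q t0.2) ^ g * ((un q t0.1) ^ g)⁻¹)
        = ((un q t.1) ^ g * (un q t0.2) ^ g) * (((un q t.2) ^ g) * ((un q t0.1) ^ g))⁻¹ := by
          rw [mul_inv]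
          exact mul_mul_mul_comm _ _ _ _
      _ = 1 := by rw [e3, mul_inv_cancel]
  have hmaps : ∀ t ∈ S, Φ t ∈ T := by
    intro t ht
    obtain ⟨h1, h2, h3, h4, -⟩ := hsol t ht
    simp only [hΦ, hT, mem_product, mem_filter, mem_univ, true_and, mem_range]
    exact ⟨hroot t ht, Nat.lt_succ_of_le (Nat.log_mono_right h2),
      Nat.lt_succ_of_le (Nat.log_mono_right h4)⟩
  have hfib : ∀ k ∈ T, #{t ∈ S | Φ t = k} ≤ 2 * 4 ^ g + 1 := by
    intro k hk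
    by_cases hke : ({t ∈ S | Φ t = k} : Finset (ℕ × ℕ)) = ∅
    · rw [hke, card_empty]; omega
    obtain ⟨p, hp⟩ := nonempty_iff_ne_empty.2 hke
    rw [mem_filter] at hp
    obtain ⟨p1, p2, p3, p4, p5, p6, p7, p8, -⟩ := hsol p hp.1
    -- description
    have hel : ∀ t ∈ ({t ∈ S | Φ t = k} : Finset (ℕ × ℕ)), t ∈ S ∧
        Nat.log 2 t.1 = Nat.log 2 p.1 ∧ Nat.log 2 t.2 = Nat.log 2 p.2 ∧
        E ∣ (p.1 : ℤ) * t.2 - t.1 * p.2 := by
      intro t ht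
      rw [mem_filter] at ht
      have h1 : Φ t = Φ p := ht.2.trans hp.2.symm
      simp only [hΦ, Prod.mk.injEq] at h1
      obtain ⟨h2, h3, h4⟩ := h1
      refine ⟨ht.1, h3, h4, ?_⟩
      obtain ⟨-, -, -, -, -, -, t7, t8, -⟩ := hsol t ht.1
      have h5 := mul_right_cancel h2
      have h6 : un q t.1 * un q p.2 = un q p.1 * un q t.2 := by
        rw [mul_inv_eq_iff_eq_mul] at h5
        rw [h5, mul_assoc, mul_assoc]
        congr 1
        rw [mul_comm (un q t.2), ← mul_assoc, inv_mul_cancel, one_mul]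
      have h7 := congrArg (Units.val) h6
      rw [Units.val_mul, Units.val_mul, un_coe t7, un_coe p8, un_coe p7, un_coe t8] at h7
      have h8 : (((p.1 : ℤ) * t.2 - t.1 * p.2 : ℤ) : ZMod q) = 0 := by
        push_cast
        linear_combination -h7
      rw [ZMod.intCast_zmod_eq_zero_iff_dvd, hqE] at h8
      exact (abs_dvd _ _).1 h8
    have hmapk : ∀ t ∈ ({t ∈ S | Φ t = k} : Finset (ℕ × ℕ)),
        ((p.1 : ℤ) * t.2 - t.1 * p.2) / E ∈ Icc (-(4 ^ g : ℤ)) (4 ^ g : ℤ) := by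
      intro t ht
      obtain ⟨h1, h2, h3, h4⟩ := hel t ht
      obtain ⟨t1, t2, t3, t4, t5, t6, t7, t8, -⟩ := hsol t h1
      have hD := dbound (g := g) hg ha hb (X := t.1) (Y := t.2) (X0 := p.1) (Y0 := p.2)
        (E := E) (by exact_mod_cast t1) (by exact_mod_cast t3) (by exact_mod_cast p1)
        (by exact_mod_cast p3) (by exact_mod_cast (log_cmp t1 p1 h2).1)
        (by exact_mod_cast (log_cmp p1 t1 h2.symm).1) (by exact_mod_cast (log_cmp t3 p3 h3).1)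
        (by exact_mod_cast (log_cmp p3 t3 h3.symm).1) t5 p5
      obtain ⟨c, hc⟩ := h4
      rw [hc, Int.mul_ediv_cancel_left _ hE, mem_Icc, ← abs_le]
      rw [hc, abs_mul, mul_comm] at hD
      exact le_of_mul_le_mul_right hD (abs_pos.2 hE)
    have hinj : Set.InjOn (fun t : ℕ × ℕ => ((p.1 : ℤ) * t.2 - t.1 * p.2) / E)
        ({t ∈ S | Φ t = k} : Finset (ℕ × ℕ)) := by
      intro t ht s hs hts
      obtain ⟨h1, h2, h3, h4⟩ := hel t (by exact_mod_cast ht)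
      obtain ⟨g1, g2, g3, g4⟩ := hel s (by exact_mod_cast hs)
      obtain ⟨t1, t2, t3, t4, t5, t6, t7, t8, -⟩ := hsol t h1
      obtain ⟨s1, s2, s3, s4, s5, s6, s7, s8, -⟩ := hsol s g1
      simp only at hts
      have e1 : (p.1 : ℤ) * t.2 - t.1 * p.2 = (p.1 : ℤ) * s.2 - s.1 * p.2 := by
        obtain ⟨c, hc⟩ := h4
        obtain ⟨d, hd⟩ := g4
        rw [hc, hd, Int.mul_ediv_cancel_left _ hE, Int.mul_ediv_cancel_left _ hE] at hts
        rw [hc, hd, hts]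
      have e2 : (p.1 : ℤ) * ((t.2 : ℤ) - s.2) = (p.2 : ℤ) * ((t.1 : ℤ) - s.1) := by linarith
      have e3 : (p.1 : ℤ) ∣ (t.1 : ℤ) - s.1 :=
        p6.dvd_of_dvd_mul_left (Dvd.intro _ e2)
      have e4 : |(t.1 : ℤ) - s.1| < p.1 := by
        have k1 := (log_cmp t1 s1 (h2.trans g2.symm)).2
        have k2 := (log_cmp s1 t1 (g2.trans h2.symm)).2
        rw [g2] at k1
        rw [h2] at k2
        have k3 : 2 ^ Nat.log 2 p.1 ≤ p.1 := Nat.pow_log_le_self 2 (by omega)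
        rw [abs_lt]
        constructor <;> omega
      have e5 : (t.1 : ℤ) - s.1 = 0 := Int.eq_zero_of_abs_lt_dvd e3 e4
      rw [e5, mul_zero] at e2
      have e6 : (t.2 : ℤ) - s.2 = 0 := by
        rcases mul_eq_zero.1 e2 with h | h
        · exfalso; omega
        · exact h
      apply Prod.ext <;> omega
    have hcard := card_le_card_of_injOn _ hmapk hinj
    refine hcard.trans (le_of_eq ?_)
    rw [Int.card_Icc]
    have h4g : (0 : ℤ) < 4 ^ g := by positivity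
    have : (4 ^ g : ℤ) + 1 - -(4 ^ g : ℤ) = ((2 * 4 ^ g + 1 : ℕ) : ℤ) := by push_cast; ring
    rw [this, Int.toNat_natCast]
  have hcard := card_le_mul_card_image_of_maps_to hmaps _ hfib
  have hroots := hC q
  have hL := Pool.Agent.H74.AE.J3.log_bound hδ0 hN
  rw [← hCL] at hL
  have hqd : (q : ℝ) ^ δ ≤ (N : ℝ) ^ δ :=
    Real.rpow_le_rpow (by positivity) (by exact_mod_cast hqN) hδ0.le
  have hTc : (#T : ℝ) ≤ (C1 * (N : ℝ) ^ δ) * ((CL * (N : ℝ) ^ δ) * (CL * (N : ℝ) ^ δ)) := by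
    rw [hT, card_product, card_product, card_range]
    push_cast
    push_cast at hL
    refine mul_le_mul (hroots.trans ?_) (mul_le_mul hL hL (by positivity) (by positivity))
      (by positivity) (by positivity)
    exact mul_le_mul_of_nonneg_left hqd hC1.le
  have e : (N : ℝ) ^ ε = (N : ℝ) ^ δ * ((N : ℝ) ^ δ * (N : ℝ) ^ δ) := by
    rw [← Real.rpow_add hN0, ← Real.rpow_add hN0]; congr 1; rw [hδ]; ring
  calc (#S : ℝ) ≤ (((2 * 4 ^ g + 1) * #T : ℕ) : ℝ) := by exact_mod_cast hcard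
    _ = (2 * 4 ^ g + 1) * (#T : ℝ) := by push_cast; ring
    _ ≤ (2 * 4 ^ g + 1) *
          ((C1 * (N : ℝ) ^ δ) * ((CL * (N : ℝ) ^ δ) * (CL * (N : ℝ) ^ δ))) :=
        mul_le_mul_of_nonneg_left hTc (by positivity)
    _ = _ := by rw [e]; ring

end Pool.Agent.H20.AF
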